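import Pool.Agent.H7.LD.Stmts

/-!
# Board `ia13`, row NVT: the average deficit of the reference graph
-/

set_option autoImplicit false

open Finset

namespace Pool.LD7

open Pool.Agent.H23.KT Pool.Agent.H46.KW Pool.KQ Pool.GT7 Pool.GU7 Pool.HZ7 Pool.IA7

theorem nvt_pow (w : ℕ) : ∃ K : ℝ, 0 ≤ K ∧ ∀ a : ℝ, 1 ≤ a →
    (a + 1) ^ (w + 1) ≤ a ^ (w + 1) + K * a ^ w := by
  induction w with
  | zero => exact ⟨1, zero_le_one, fun a _ => by simp⟩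
  | succ w ih =>
    obtain ⟨K, hK, h⟩ := ih
    refine ⟨1 + 2 * K, by positivity, fun a ha => ?_⟩
    have h1 := mul_le_mul_of_nonneg_right (h a ha) (by linarith : (0 : ℝ) ≤ a + 1)
    have h2 : K * a ^ w * 1 ≤ K * a ^ w * a := mul_le_mul_of_nonneg_left ha (by positivity)
    calc (a + 1) ^ (w + 1 + 1) = (a + 1) ^ (w + 1) * (a + 1) := pow_succ _ _
      _ ≤ (a ^ (w + 1) + K * a ^ w) * (a + 1) := h1
      _ = a ^ (w + 1 + 1) + a ^ (w + 1) + K * a ^ w * a + K * a ^ w * 1 := by ring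
      _ ≤ a ^ (w + 1 + 1) + a ^ (w + 1) + K * a ^ w * a + K * a ^ w * a := by linarith
      _ = a ^ (w + 1 + 1) + (1 + 2 * K) * a ^ (w + 1) := by ring

theorem nvt_thm (hTTR : TTRStmt) : NVTStmt := by
  intro p w r hpr
  obtain ⟨hw1, hwp, hrp, -⟩ := hpr
  obtain ⟨K', hK', hpow⟩ := nvt_pow w
  have hc0 : 0 ≤ c1 p w := Nat.cast_nonneg _
  refine ⟨((w : ℝ) + 3) / 2 * c1 p w * (1 + ((p : ℝ) + 3 - r) * K' + K') + 1, ?_,
    (p + 4) * (p + 2).choose (w + 1) * 2 ^ (w + 1) + 1, ?_⟩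
  · have : (r : ℝ) ≤ p + 1 := by exact_mod_cast hrp
    have : 0 ≤ (p : ℝ) + 3 - r := by linarith
    positivity
  intro a ha
  have hrpR : (r : ℝ) ≤ p + 1 := by exact_mod_cast hrp
  have hr0 : (0 : ℝ) ≤ r := Nat.cast_nonneg r
  have hp0 : (0 : ℝ) ≤ p := Nat.cast_nonneg p
  have hd0 : 0 ≤ (p : ℝ) + 3 - r := by linarith
  have ha1 : 1 ≤ a := by omega
  have ha1R : (1 : ℝ) ≤ a := by exact_mod_cast ha1
  have ha0R : (0 : ℝ) ≤ a := by linarith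
  have hsub : ((p + 3 - r : ℕ) : ℝ) = (p : ℝ) + 3 - r := by
    rw [Nat.cast_sub (by omega)]
    push_cast
    ring
  have hkt : kt p w r a = (TT (p + 4) (w + 3) a (r + 1) : ℝ) -
      (((p : ℝ) + 3 - r) * a + 1) / 2 * (c1 p w * ((a : ℝ) + 1) ^ (w + 1)) := by
    unfold kt
    rw [hsub]
  constructor
  · have hC := (hTTR.2.2.1 (p + 4) (w + 3) a (r + 1) (by omega)).1
    have h1 : (a : ℝ) ^ (w + 3) ≤ (TT (p + 4) (w + 3) a (r + 1) : ℝ) := by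
      have h2 : 1 * a ^ (w + 3) ≤ TT (p + 4) (w + 3) a (r + 1) :=
        le_trans (Nat.mul_le_mul_right _ (Nat.choose_pos (by omega))) hC
      rw [one_mul] at h2
      exact_mod_cast h2
    have h3 : (((p : ℝ) + 3 - r) * a + 1) / 2 ≤ ((p : ℝ) + 4) * a := by nlinarith
    have h4 : ((a : ℝ) + 1) ^ (w + 1) ≤ (2 * a) ^ (w + 1) :=
      pow_le_pow_left₀ (by linarith) (by linarith) _
    have h5 : (((p : ℝ) + 3 - r) * a + 1) / 2 * (c1 p w * ((a : ℝ) + 1) ^ (w + 1)) ≤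
        ((p : ℝ) + 4) * a * (c1 p w * (2 * a) ^ (w + 1)) :=
      mul_le_mul h3 (mul_le_mul_of_nonneg_left h4 hc0) (by positivity) (by positivity)
    have h6 : ((p : ℝ) + 4) * c1 p w * 2 ^ (w + 1) + 1 ≤ a := by
      have : (((p + 4) * (p + 2).choose (w + 1) * 2 ^ (w + 1) + 1 : ℕ) : ℝ) ≤ a := by
        exact_mod_cast ha
      push_cast at this
      exact this
    have h7 : ((p : ℝ) + 4) * a * (c1 p w * (2 * a) ^ (w + 1)) =
        (((p : ℝ) + 4) * c1 p w * 2 ^ (w + 1)) * (a : ℝ) ^ (w + 2) := by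
      rw [mul_pow]
      ring
    have h8 : (((p : ℝ) + 4) * c1 p w * 2 ^ (w + 1)) * (a : ℝ) ^ (w + 2) ≤
        (a - 1) * (a : ℝ) ^ (w + 2) :=
      mul_le_mul_of_nonneg_right (by linarith) (by positivity)
    have h9 : (a - 1) * (a : ℝ) ^ (w + 2) = (a : ℝ) ^ (w + 3) - (a : ℝ) ^ (w + 2) := by ring
    have h10 : (0 : ℝ) < (a : ℝ) ^ (w + 2) := by positivity
    rw [hkt]
    linarith
  · have hA := hTTR.1 (p + 2) (w + 1) a r (by omega)
    have hB := hTTR.2.1 (p + 2) (w + 1) a (r + 1) (by omega) (by omega)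
    have hC := (hTTR.2.2.1 (p + 2) (w + 1) a r (by omega)).1
    rw [Nat.add_sub_cancel] at hB
    change TT (p + 3) (w + 2) a (r + 1) = TT (p + 3) (w + 2) a r + TT (p + 2) (w + 1) a r at hA
    change (w + 1 + 2) * TT (p + 4) (w + 3) a (r + 1) +
      (r + 1) * (a + 1) * TT (p + 2) (w + 1) a r =
      ((p + 2 + 2) * a + (r + 1)) * TT (p + 3) (w + 2) a (r + 1) at hB
    rw [hA] at hB
    have hBR := congrArg (Nat.cast : ℕ → ℝ) hB
    push_cast at hBR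
    have hCR : c1 p w * (a : ℝ) ^ (w + 1) ≤ (TT (p + 2) (w + 1) a r : ℝ) := by
      unfold c1
      exact_mod_cast hC
    have e1 : (TT (p + 3) (w + 2) a r : ℝ) * ((((p + 3) * a + r + a + 1 : ℕ)) : ℝ) -
        ((w : ℝ) + 3) * kt p w r a =
        ((w : ℝ) + 3) / 2 * c1 p w * ((((p : ℝ) + 3 - r) * a + 1) * ((a : ℝ) + 1) ^ (w + 1)) -
          ((p : ℝ) + 3 - r) * a * (TT (p + 2) (w + 1) a r : ℝ) := by
      rw [hkt]
      push_cast
      linear_combination (-1 : ℝ) * hBR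
    rw [e1]
    have e2 : ((p : ℝ) + 3 - r) * a * (c1 p w * (a : ℝ) ^ (w + 1)) ≤
        ((p : ℝ) + 3 - r) * a * (TT (p + 2) (w + 1) a r : ℝ) :=
      mul_le_mul_of_nonneg_left hCR (by positivity)
    have e3 : (((p : ℝ) + 3 - r) * a + 1) * ((a : ℝ) + 1) ^ (w + 1) ≤
        (((p : ℝ) + 3 - r) * a + 1) * ((a : ℝ) ^ (w + 1) + K' * (a : ℝ) ^ w) :=
      mul_le_mul_of_nonneg_left (hpow a ha1R) (by positivity)
    have e4 : K' * (a : ℝ) ^ w * 1 ≤ K' * (a : ℝ) ^ w * a :=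
      mul_le_mul_of_nonneg_left ha1R (by positivity)
    have e5 : (((p : ℝ) + 3 - r) * a + 1) * ((a : ℝ) ^ (w + 1) + K' * (a : ℝ) ^ w) ≤
        ((p : ℝ) + 3 - r) * (a : ℝ) ^ (w + 2) +
          (1 + ((p : ℝ) + 3 - r) * K' + K') * (a : ℝ) ^ (w + 1) := by
      have : (((p : ℝ) + 3 - r) * a + 1) * ((a : ℝ) ^ (w + 1) + K' * (a : ℝ) ^ w) =
        ((p : ℝ) + 3 - r) * (a : ℝ) ^ (w + 2) + (1 + ((p : ℝ) + 3 - r) * K') * (a : ℝ) ^ (w + 1) +
          K' * (a : ℝ) ^ w * 1 := by ring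
      have h2 : K' * (a : ℝ) ^ w * a = K' * (a : ℝ) ^ (w + 1) := by ring
      rw [this]
      linarith
    have hcc : 0 ≤ ((w : ℝ) + 3) / 2 * c1 p w := by positivity
    have e6 := mul_le_mul_of_nonneg_left (e3.trans e5) hcc
    have e7 : ltt p w r * ((p : ℝ) + 4) = ((w : ℝ) + 1) * c1 p w * ((p : ℝ) + 3 - r) / 2 := by
      unfold ltt
      field_simp
    have hl0 : 0 ≤ ltt p w r := by
      unfold ltt
      positivity
    have hn : ((((p + 3) * a + r + a + 1 : ℕ)) : ℝ) = ((p : ℝ) + 4) * a + (r + 1) := by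
      push_cast
      ring
    set X := 1 + ((p : ℝ) + 3 - r) * K' + K' with hX
    have hX0 : 0 ≤ X := by positivity
    rw [hn]
    have e8 : (ltt p w r * (a : ℝ) ^ (w + 1) + (((w : ℝ) + 3) / 2 * c1 p w * X + 1) *
        (a : ℝ) ^ w) * (((p : ℝ) + 4) * a + (r + 1)) =
        (ltt p w r * ((p : ℝ) + 4)) * (a : ℝ) ^ (w + 2) + ltt p w r * (a : ℝ) ^ (w + 1) * (r + 1) +
        (((w : ℝ) + 3) / 2 * c1 p w * X) * (a : ℝ) ^ (w + 1) +
        ((((w : ℝ) + 3) / 2 * c1 p w * X) * ((p : ℝ) + 3) + ((p : ℝ) + 4)) * (a : ℝ) ^ (w + 1) +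
        (((w : ℝ) + 3) / 2 * c1 p w * X + 1) * (a : ℝ) ^ w * (r + 1) := by
      ring
    rw [e8, e7]
    have e9 : 0 ≤ ltt p w r * (a : ℝ) ^ (w + 1) * (r + 1) := by positivity
    have e10 : 0 ≤ ((((w : ℝ) + 3) / 2 * c1 p w * X) * ((p : ℝ) + 3) + ((p : ℝ) + 4)) *
        (a : ℝ) ^ (w + 1) := by positivity
    have e11 : 0 ≤ (((w : ℝ) + 3) / 2 * c1 p w * X + 1) * (a : ℝ) ^ w * (r + 1) := by positivity
    have e12 : ((w : ℝ) + 3) / 2 * c1 p w * (((p : ℝ) + 3 - r) * (a : ℝ) ^ (w + 2) +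
        X * (a : ℝ) ^ (w + 1)) - ((p : ℝ) + 3 - r) * a * (c1 p w * (a : ℝ) ^ (w + 1)) =
        ((w : ℝ) + 1) * c1 p w * ((p : ℝ) + 3 - r) / 2 * (a : ℝ) ^ (w + 2) +
          (((w : ℝ) + 3) / 2 * c1 p w * X) * (a : ℝ) ^ (w + 1) := by ring
    linarith

end Pool.LD7
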